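import Mathlib.Analysis.CStarAlgebra.Matrix
import Mathlib.Analysis.CStarAlgebra.Classes
import Mathlib.GroupTheory.PresentedGroup
import Mathlib.Combinatorics.SimpleGraph.Basic
import Mathlib.Tactic

/-!
# MP_3b70de_al : an isomorphism game algebra that embeds into no `C*(Γ(M,b))`

The two graphs associated with the Mermin magic square (24 vertices each) have a nonzero
isomorphism game C*-algebra, but that algebra has no unital *-homomorphism to the full group
C*-algebra of any solution group.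
-/

namespace Pool.Agent.Results.MP_3b70de_al.NoEmbedding

open Finset

/-! ### Definitions -/

/-- The pairs `(g,g')` of `G` and `(h,h')` of `H` stand in the same one of the three relations
(equal, adjacent, distinct non-adjacent). -/
def SameRel {V W : Type} (G : SimpleGraph V) (H : SimpleGraph W) (g g' : V) (h h' : W) : Prop :=
  (g = g' ↔ h = h') ∧ (G.Adj g g' ↔ H.Adj h h')

/-- The relations of the isomorphism game `(G,H)` for elements `p g h` of a *-ring. -/
structure GameFamily {V W : Type} [Fintype V] [Fintype W] (G : SimpleGraph V)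
    (H : SimpleGraph W) (A : Type) [Ring A] [StarRing A] (p : V → W → A) : Prop where
  idem : ∀ g h, p g h * p g h = p g h
  selfAdj : ∀ g h, star (p g h) = p g h
  row : ∀ g, ∑ h, p g h = 1
  col : ∀ h, ∑ g, p g h = 1
  orth : ∀ g g' h h', ¬ SameRel G H g g' h h' → p g h * p g' h' = 0

/-- `(A, p)` is the isomorphism game algebra `𝒜(G,H)`: the universal unital C*-algebra generated
by elements `p g h` satisfying the relations of the game. -/
structure IsGameAlgebra {V W : Type} [Fintype V] [Fintype W] (G : SimpleGraph V)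
    (H : SimpleGraph W) (A : Type) [CStarAlgebra A] (p : V → W → A) : Prop where
  fam : GameFamily G H A p
  univ : ∀ (B : Type) [CStarAlgebra B] (q : V → W → B), GameFamily G H B q →
    ∃! φ : A →⋆ₐ[ℂ] B, ∀ g h, φ (p g h) = q g h

/-- The relators of the solution group of `Mx = b`; the generator `none` is `J`, the generator
`some i` is `g_i`. -/
def solRels {m n : ℕ} (M : Matrix (Fin m) (Fin n) (ZMod 2)) (b : Fin m → ZMod 2) :
    Set (FreeGroup (Option (Fin n))) :=
  {r | r = FreeGroup.of none ^ 2 ∨ (∃ i : Fin n, r = FreeGroup.of (some i) ^ 2) ∨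
    (∃ i : Fin n, r = FreeGroup.of none * FreeGroup.of (some i) *
      (FreeGroup.of (some i) * FreeGroup.of none)⁻¹) ∨
    (∃ (i j : Fin n) (k : Fin m), M k i = 1 ∧ M k j = 1 ∧
      r = FreeGroup.of (some i) * FreeGroup.of (some j) *
        (FreeGroup.of (some j) * FreeGroup.of (some i))⁻¹) ∨
    (∃ k : Fin m, r = ((List.finRange n).map (fun i => FreeGroup.of (some i) ^ (M k i).val)).prod *
      (FreeGroup.of none ^ (b k).val)⁻¹)}

/-- The solution group `Γ(M,b)`. -/
abbrev SolutionGroup {m n : ℕ} (M : Matrix (Fin m) (Fin n) (ZMod 2)) (b : Fin m → ZMod 2) :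
    Type := PresentedGroup (solRels M b)

/-- `(B, u)` is the full group C*-algebra of the group `Γ`: `u` is universal among the
homomorphisms from `Γ` to unitary groups of unital C*-algebras. -/
structure IsGroupCStarAlgebra (Γ : Type) [Group Γ] (B : Type) [CStarAlgebra B]
    (u : Γ →* unitary B) : Prop where
  univ : ∀ (D : Type) [CStarAlgebra D] (v : Γ →* unitary D),
    ∃! φ : B →⋆ₐ[ℂ] D, ∀ g, φ (u g : B) = (v g : D)

/-! ### The graphs of the magic square -/

/-- The variables of the six lines of the `3 × 3` grid. -/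
def var : Fin 6 → Fin 3 → Fin 9 :=
  ![![0, 1, 2], ![3, 4, 5], ![6, 7, 8], ![0, 3, 6], ![1, 4, 7], ![2, 5, 8]]

/-- The right-hand side of the magic square system. -/
def bM : Fin 6 → ZMod 2 := ![0, 0, 0, 0, 0, 1]

/-- The assignment of the variables of line `k` encoded by `s` (the third value is determined by
the equation of the line with right-hand side `b k`). -/
def val (b : Fin 6 → ZMod 2) (k : Fin 6) (s : ZMod 2 × ZMod 2) : Fin 3 → ZMod 2 :=
  ![s.1, s.2, b k + s.1 + s.2]

/-- Two local assignments are inconsistent if they differ at a common variable. -/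
def Incons (b : Fin 6 → ZMod 2) (g g' : Fin 6 × ZMod 2 × ZMod 2) : Prop :=
  ∃ i j : Fin 3, var g.1 i = var g'.1 j ∧ val b g.1 g.2 i ≠ val b g'.1 g'.2 j

instance (b : Fin 6 → ZMod 2) (g g' : Fin 6 × ZMod 2 × ZMod 2) : Decidable (Incons b g g') := by
  unfold Incons; infer_instance

/-- The graph `G(M,b)` of the system with the incidence of the magic square and right-hand side
`b`: vertices are the solutions of single equations, edges join inconsistent ones. -/
def GG (b : Fin 6 → ZMod 2) : SimpleGraph (Fin 6 × ZMod 2 × ZMod 2) where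
  Adj := Incons b
  symm := by
    refine ⟨?_⟩
    rintro g g' ⟨i, j, h1, h2⟩
    exact ⟨j, i, h1.symm, h2.symm⟩
  loopless := by
    refine ⟨?_⟩
    rintro g ⟨i, j, h1, h2⟩
    have hinj : ∀ k : Fin 6, ∀ i j : Fin 3, var k i = var k j → i = j := by decide
    have := hinj g.1 i j h1
    subst this
    exact h2 rfl

instance (b : Fin 6 → ZMod 2) : DecidableRel (GG b).Adj := fun g g' => by
  change Decidable (Incons b g g'); infer_instance

/-! ### The quantum solution -/

/-- Two-qubit Pauli observables of the magic square (real integer matrices): the observable of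
the variable `i`. -/
def obs : Fin 9 → Matrix (Fin 4) (Fin 4) ℤ :=
  ![ -- X ⊗ 1
     !![0,0,1,0; 0,0,0,1; 1,0,0,0; 0,1,0,0],
     -- 1 ⊗ X
     !![0,1,0,0; 1,0,0,0; 0,0,0,1; 0,0,1,0],
     -- X ⊗ X
     !![0,0,0,1; 0,0,1,0; 0,1,0,0; 1,0,0,0],
     -- 1 ⊗ Z
     !![1,0,0,0; 0,-1,0,0; 0,0,1,0; 0,0,0,-1],
     -- Z ⊗ 1
     !![1,0,0,0; 0,1,0,0; 0,0,-1,0; 0,0,0,-1],
     -- Z ⊗ Z
     !![1,0,0,0; 0,-1,0,0; 0,0,-1,0; 0,0,0,1],
     -- X ⊗ Z
     !![0,0,1,0; 0,0,0,-1; 1,0,0,0; 0,-1,0,0],
     -- Z ⊗ X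
     !![0,1,0,0; 1,0,0,0; 0,0,0,-1; 0,0,-1,0],
     -- Y ⊗ Y
     !![0,0,0,-1; 0,0,1,0; 0,1,0,0; -1,0,0,0]]

/-- sign -/
def sgn (x : ZMod 2) : ℤ := if x = 0 then 1 else -1

/-- Four times the projection onto the joint eigenspace of the observables of line `k` given by
the assignment `s`. -/
def PZ (k : Fin 6) (s : ZMod 2 × ZMod 2) : Matrix (Fin 4) (Fin 4) ℤ :=
  (1 + sgn s.1 • obs (var k 0)) * (1 + sgn s.2 • obs (var k 1))

lemma PZ_idem : ∀ k s, PZ k s * PZ k s = 4 • PZ k s := by decide +kernel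
lemma PZ_transpose : ∀ k s, (PZ k s).transpose = PZ k s := by decide +kernel
lemma PZ_sum : ∀ k, ∑ s, PZ k s = 4 • 1 := by decide +kernel
lemma PZ_orth : ∀ k k' s s', Incons bM (k, s) (k', s') → PZ k s * PZ k' s' = 0 := by
  decide +kernel

lemma incons_of_not_sameRel : ∀ k k' s s' t t',
    ¬ ((((k, s) : Fin 6 × ZMod 2 × ZMod 2) = (k', s') ↔
        ((k, t) : Fin 6 × ZMod 2 × ZMod 2) = (k', t')) ∧
      (Incons bM (k, s) (k', s') ↔ Incons 0 (k, t) (k', t'))) →
    Incons bM (k, s + t) (k', s' + t') := by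
  decide +kernel


/-- The projections of the quantum strategy. -/
noncomputable def strat (g h : Fin 6 × ZMod 2 × ZMod 2) : Matrix (Fin 4) (Fin 4) ℂ :=
  if g.1 = h.1 then (1 / 4 : ℂ) • (Int.castRingHom ℂ).mapMatrix (PZ g.1 (g.2 + h.2)) else 0

lemma strat_sum (k : Fin 6) :
    ∑ s, (1 / 4 : ℂ) • (Int.castRingHom ℂ).mapMatrix (PZ k s) = 1 := by
  rw [← Finset.smul_sum, ← map_sum, PZ_sum, map_nsmul, map_one, ← Nat.cast_smul_eq_nsmul ℂ,
    smul_smul]
  norm_num

lemma strat_fam : GameFamily (GG bM) (GG 0) (Matrix (Fin 4) (Fin 4) ℂ) strat where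
  idem g h := by
    unfold strat
    split_ifs with hk
    · rw [smul_mul_smul_comm, ← map_mul, PZ_idem, map_nsmul, ← Nat.cast_smul_eq_nsmul ℂ, smul_smul]
      congr 1
      norm_num
    · simp
  selfAdj g h := by
    unfold strat
    split_ifs with hk
    · rw [star_smul]
      congr 1
      · simp
      · ext i j
        have h1 := congrFun (congrFun (PZ_transpose g.1 (g.2 + h.2)) i) j
        rw [Matrix.transpose_apply] at h1
        rw [Matrix.star_apply, RingHom.mapMatrix_apply, Matrix.map_apply, Matrix.map_apply, h1]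
        simp
    · simp
  row g := by
    rw [Fintype.sum_prod_type]
    have h : ∀ l : Fin 6, ∑ t : ZMod 2 × ZMod 2, strat g (l, t) =
        if g.1 = l then 1 else 0 := by
      intro l
      by_cases hl : g.1 = l
      · rw [if_pos hl, ← strat_sum g.1]
        refine Fintype.sum_equiv (Equiv.addLeft g.2) _ _ fun t => ?_
        rw [strat, if_pos hl]
        rfl
      · rw [if_neg hl]
        refine Finset.sum_eq_zero fun t _ => ?_
        rw [strat, if_neg hl]
    simp only [h]
    rw [Finset.sum_ite_eq, if_pos (Finset.mem_univ _)]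
  col h := by
    rw [Fintype.sum_prod_type]
    have h' : ∀ k : Fin 6, ∑ s : ZMod 2 × ZMod 2, strat (k, s) h =
        if k = h.1 then 1 else 0 := by
      intro k
      by_cases hl : k = h.1
      · rw [if_pos hl, ← strat_sum k]
        refine Fintype.sum_equiv (Equiv.addRight h.2) _ _ fun t => ?_
        rw [strat, if_pos hl]
        rfl
      · rw [if_neg hl]
        refine Finset.sum_eq_zero fun t _ => ?_
        rw [strat, if_neg hl]
    simp only [h']
    rw [Finset.sum_ite_eq', if_pos (Finset.mem_univ _)]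
  orth g g' h h' hrel := by
    obtain ⟨k, s⟩ := g
    obtain ⟨k', s'⟩ := g'
    obtain ⟨l, t⟩ := h
    obtain ⟨l', t'⟩ := h'
    unfold strat
    by_cases hk : k = l
    · by_cases hk' : k' = l'
      · subst hk; subst hk'
        rw [if_pos rfl, if_pos rfl, smul_mul_smul_comm, ← map_mul]
        have h1 : Incons bM (k, s + t) (k', s' + t') := incons_of_not_sameRel k k' s s' t t' hrel
        rw [PZ_orth _ _ _ _ h1, map_zero, smul_zero]
      · rw [if_neg (show ¬ ((k', s') : Fin 6 × ZMod 2 × ZMod 2).1 =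
          ((l', t') : Fin 6 × ZMod 2 × ZMod 2).1 from hk'), mul_zero]
    · rw [if_neg (show ¬ ((k, s) : Fin 6 × ZMod 2 × ZMod 2).1 =
          ((l, t) : Fin 6 × ZMod 2 × ZMod 2).1 from hk), zero_mul]

/-! ### The graphs are not isomorphic -/

lemma incons_same : ∀ (k : Fin 6) (s s' : ZMod 2 × ZMod 2), s ≠ s' →
    Incons bM (k, s) (k, s') := by decide

lemma not_incons_zero : ∀ (k k' : Fin 6), ¬ Incons 0 (k, 0) (k', 0) := by decide

lemma no_solution (s : Fin 6 → ZMod 2 × ZMod 2)
    (h : ∀ k k', ¬ Incons bM (k, s k) (k', s k')) : False := by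
  have key : ∀ (k k' : Fin 6) (i j : Fin 3), var k i = var k' j →
      val bM k (s k) i = val bM k' (s k') j := by
    intro k k' i j hij
    by_contra hne
    exact h k k' ⟨i, j, hij, hne⟩
  have e00 := key 0 3 0 0 rfl
  have e01 := key 0 4 1 0 rfl
  have e02 := key 0 5 2 0 rfl
  have e10 := key 1 3 0 1 rfl
  have e11 := key 1 4 1 1 rfl
  have e12 := key 1 5 2 1 rfl
  have e20 := key 2 3 0 2 rfl
  have e21 := key 2 4 1 2 rfl
  have e22 := key 2 5 2 2 rfl
  simp only [val, bM] at e00 e01 e02 e10 e11 e12 e20 e21 e22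
  simp at e00 e01 e02 e10 e11 e12 e20 e21 e22
  have h2 : (2 : ZMod 2) = 0 := by decide
  have : (1 : ZMod 2) = 0 := by
    linear_combination -(e00 + e01 + e02 + e10 + e11 + e12 + e20 + e21 + e22) +
      ((s 0).1 + (s 0).2 + (s 1).1 + (s 1).2 + (s 2).1 + (s 2).2 - (s 3).1 - (s 3).2 -
        (s 4).1 - (s 4).2 - (s 5).1 - (s 5).2) * h2
  exact absurd this (by decide)

lemma no_map (f : Fin 6 × ZMod 2 × ZMod 2 → Fin 6 × ZMod 2 × ZMod 2)
    (hf : ∀ h h', SameRel (GG bM) (GG 0) (f h) (f h') h h') : False := by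
  have h1 : ∀ l l' : Fin 6, l ≠ l' → f (l, 0) ≠ f (l', 0) ∧
      ¬ Incons bM (f (l, 0)) (f (l', 0)) := by
    intro l l' hl
    obtain ⟨ha, hb⟩ := hf (l, 0) (l', 0)
    refine ⟨fun h => hl (congrArg Prod.fst (ha.1 h)), fun h => ?_⟩
    exact not_incons_zero l l' (hb.1 h)
  have hinj : Function.Injective (fun l : Fin 6 => (f (l, 0)).1) := by
    intro l l' hll
    by_contra hne
    obtain ⟨h2, h3⟩ := h1 l l' hne
    simp only at hll
    apply h3
    have h4 : (f (l, 0)).2 ≠ (f (l', 0)).2 := fun h => h2 (Prod.ext hll h)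
    have h5 := incons_same (f (l, 0)).1 (f (l, 0)).2 (f (l', 0)).2 h4
    have h6 : ((f (l, 0)).1, (f (l', 0)).2) = f (l', 0) := by rw [hll]
    rw [h6] at h5
    exact h5
  have hsurj := Finite.surjective_of_injective hinj
  choose c hc using hsurj
  apply no_solution (fun k => (f (c k, 0)).2)
  intro k k'
  have e1 : (k, (f (c k, 0)).2) = f (c k, 0) := Prod.ext (hc k).symm rfl
  have e2 : (k', (f (c k', 0)).2) = f (c k', 0) := Prod.ext (hc k').symm rfl
  rw [e1, e2]
  by_cases hkk : k = k'
  · subst hkk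
    exact (GG bM).irrefl
  · have : c k ≠ c k' := by
      intro h
      apply hkk
      rw [← hc k, ← hc k', h]
    exact (h1 _ _ this).2

/-- A unital C*-algebra containing a family for the game admits no character. -/
lemma no_character (A : Type) [CStarAlgebra A]
    (p : (Fin 6 × ZMod 2 × ZMod 2) → (Fin 6 × ZMod 2 × ZMod 2) → A)
    (hp : GameFamily (GG bM) (GG 0) A p) (χ : A →⋆ₐ[ℂ] ℂ) : False := by
  have hex : ∀ h, ∃ g, χ (p g h) ≠ 0 := by
    intro h
    by_contra hcon
    push Not at hcon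
    have h1 := congrArg χ (hp.col h)
    rw [map_sum, map_one, Finset.sum_eq_zero (fun g _ => hcon g)] at h1
    exact zero_ne_one h1
  choose f hf using hex
  apply no_map f
  intro h h'
  by_contra hne
  have h1 := congrArg χ (hp.orth _ _ _ _ hne)
  rw [map_mul, map_zero] at h1
  rcases mul_eq_zero.1 h1 with h2 | h2
  · exact hf h h2
  · exact hf h' h2

open scoped Matrix.Norms.L2Operator in
lemma nontrivial_game (A : Type) [CStarAlgebra A]
    (p : (Fin 6 × ZMod 2 × ZMod 2) → (Fin 6 × ZMod 2 × ZMod 2) → A)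
    (hA : IsGameAlgebra (GG bM) (GG 0) A p) : Nontrivial A := by
  obtain ⟨φ, _, _⟩ := hA.univ (Matrix (Fin 4) (Fin 4) ℂ) strat strat_fam
  refine ⟨⟨1, 0, fun h => ?_⟩⟩
  have h1 := congrArg φ h
  rw [map_one, map_zero] at h1
  exact one_ne_zero h1

/-- **Negative answer to Q1 of MP_3b70de_al.** There are finite graphs `G`, `H` such that the
isomorphism game algebra `𝒜(G,H)` is nonzero, but for no binary linear system `Mx = b` is there
a unital *-homomorphism (let alone an injective one) from `𝒜(G,H)` to the full group C*-algebra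
`C*(Γ(M,b))`. -/
theorem result : ∃ (V W : Type) (_ : Fintype V) (_ : Fintype W) (G : SimpleGraph V)
    (H : SimpleGraph W),
    (∃ q : V → W → Matrix (Fin 4) (Fin 4) ℂ, GameFamily G H (Matrix (Fin 4) (Fin 4) ℂ) q) ∧
    ∀ (A : Type) [CStarAlgebra A] (p : V → W → A), IsGameAlgebra G H A p →
      Nontrivial A ∧
      ∀ (m n : ℕ) (M : Matrix (Fin m) (Fin n) (ZMod 2)) (b : Fin m → ZMod 2)
        (B : Type) [CStarAlgebra B] (u : SolutionGroup M b →* unitary B),
        IsGroupCStarAlgebra (SolutionGroup M b) B u → IsEmpty (A →⋆ₐ[ℂ] B) := by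
  refine ⟨_, _, inferInstance, inferInstance, GG bM, GG 0, ⟨strat, strat_fam⟩, ?_⟩
  intro A _ p hA
  refine ⟨nontrivial_game A p hA, ?_⟩
  intro m n M b B _ u hB
  refine ⟨fun φ => ?_⟩
  obtain ⟨ε, _, _⟩ := hB.univ ℂ 1
  exact no_character A p hA.fam (ε.comp φ)

end Pool.Agent.Results.MP_3b70de_al.NoEmbedding
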